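import Mathlib

set_option autoImplicit false

namespace Pool.Agent.Results.MP_35fef3_co.TopGap

open Finset

/-- A nonempty family satisfying the basis exchange property: the bases of a matroid. -/
def IsBases {n : ℕ} (U : Finset (Finset (Fin n))) : Prop :=
  U.Nonempty ∧ ∀ A ∈ U, ∀ B ∈ U, ∀ x ∈ A \ B, ∃ y ∈ B \ A, insert y (A.erase x) ∈ U

/-- The number of independent sets (subsets of bases) of size `i`. -/
def f {n : ℕ} (U : Finset (Finset (Fin n))) (i : ℕ) : ℕ :=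
  #{I : Finset (Fin n) | #I = i ∧ ∃ B ∈ U, I ⊆ B}

/-- The top entry `h_d` of the h-vector of the independence complex of a rank `d` matroid. -/
def hTop {n : ℕ} (d : ℕ) (U : Finset (Finset (Fin n))) : ℤ :=
  ∑ i ∈ range (d + 1), (-1) ^ (d - i) * (f U i : ℤ)

def M : Finset (Finset (Fin 6)) :=
  {{0, 3}, {0, 4}, {0, 5}, {1, 3}, {1, 4}, {1, 5}, {2, 3}, {2, 4}, {2, 5}}

instance {n : ℕ} (U : Finset (Finset (Fin n))) : Decidable (IsBases U) := by
  unfold IsBases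
  infer_instance

theorem two : ∀ B ∈ M, #B = 2 := by decide +kernel

theorem rect : ∀ A ∈ M, ∀ C ∈ M, ∀ B ∈ M, B ⊆ A ∪ C → B = A ∨ B = C ∨
    ∃ t ∈ A \ C, ∀ z ∈ C \ A, insert z (A.erase t) ∈ M → insert z (A.erase t) = B := by
  decide +kernel

theorem ne_three : ∀ a b c d e g : Bool, hTop 2 (M.filter fun B => ∀ x ∈ B,
    ![a, b, c, d, e, g] x = true) ≠ 3 := by
  intro a b c
  cases a <;> cases b <;> cases c <;> decide +kernel

theorem key (U : Finset (Finset (Fin 6))) (h1 : U ⊆ M) (h2 : IsBases U) : hTop 2 U ≠ 3 := by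
  let s : Fin 6 → Bool := fun x => decide (∃ B ∈ U, x ∈ B)
  have h3 : U = M.filter fun B => ∀ x ∈ B, s x = true := by
    ext B
    rw [mem_filter]
    refine ⟨fun h => ⟨h1 h, fun x hx => decide_eq_true ⟨B, h, hx⟩⟩, fun ⟨h, h4⟩ => ?_⟩
    obtain ⟨x, y, -, rfl⟩ := card_eq_two.1 (two B h)
    obtain ⟨A, hA, hx⟩ := of_decide_eq_true (h4 x (by simp))
    obtain ⟨C, hC, hy⟩ := of_decide_eq_true (h4 y (by simp))
    rcases rect A (h1 hA) C (h1 hC) _ h (by simp [insert_subset_iff, hx, hy]) with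
      h5 | h5 | ⟨t, ht, h5⟩
    · rwa [h5]
    · rwa [h5]
    · obtain ⟨z, hz, h6⟩ := h2.2 A hA C hC t ht
      rwa [← h5 z hz (h1 h6)]
  have h4 : s = ![s 0, s 1, s 2, s 3, s 4, s 5] := by
    funext x
    fin_cases x <;> rfl
  rw [h3, h4]
  exact ne_three _ _ _ _ _ _

theorem result : ¬ ∀ (n d : ℕ) (𝓑 : Finset (Finset (Fin n))), 1 ≤ d → IsBases 𝓑 →
    (∀ B ∈ 𝓑, #B = d) → 1 ≤ hTop d 𝓑 →
    ∃ U ⊆ 𝓑, IsBases U ∧ hTop d U = hTop d 𝓑 - 1 := by
  intro h
  have h4 : hTop 2 M = 4 := by decide +kernel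
  obtain ⟨U, h1, h2, h3⟩ := h 6 2 M (by decide) (by decide +kernel) (by decide +kernel)
    (by rw [h4]; decide)
  rw [h4] at h3
  exact key U h1 h2 h3

end Pool.Agent.Results.MP_35fef3_co.TopGap
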